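import Pool.Agent.H65.EN.Targets

/-!
# TRI: counting functions one coordinate after the other (row of the board enx)
-/

set_option autoImplicit false

open Finset MeasureTheory

namespace Pool.Agent.H68.EN

open Pool.Agent.H24.CL Pool.Agent.H24.LV Pool.Agent.H31.LV Pool.Agent.H50.LV Pool.Agent.H65.EN

theorem pf_TRI : T_TRI := by
  intro n
  induction n with
  | zero =>
    intro S s _
    have : S.card ≤ 1 := by
      rw [Finset.card_le_one]
      intro a _ b _
      exact Subsingleton.elim a b
    simpa using this
  | succ n ih =>
    intro S s hS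
    rcases S.eq_empty_or_nonempty with h0 | h0
    · subst h0
      simp
    obtain ⟨f0, hf0⟩ := h0
    have hV : (S.image fun g => g (Fin.last n)).card ≤ s (Fin.last n) := by
      refine le_trans (Finset.card_le_card ?_) (hS (Fin.last n) f0 hf0)
      intro v hv
      rw [Finset.mem_image] at hv ⊢
      obtain ⟨g, hg, rfl⟩ := hv
      refine ⟨g, ?_, rfl⟩
      rw [Finset.mem_filter]
      refine ⟨hg, fun i hi => ?_⟩
      exact absurd (Fin.le_last i) (not_le.mpr hi)
    have hF : ∀ v ∈ S.image (fun g => g (Fin.last n)),
        (S.filter fun g => g (Fin.last n) = v).card ≤ ∏ j : Fin n, s j.castSucc := by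
      intro v _
      have hinj : Set.InjOn (fun (g : Fin (n + 1) → ℤ) (i : Fin n) => g i.castSucc)
          ((S.filter fun g => g (Fin.last n) = v : Finset (Fin (n + 1) → ℤ)) :
            Set (Fin (n + 1) → ℤ)) := by
        intro g hg g' hg' he
        simp only [Finset.coe_filter, Set.mem_ofPred_eq] at hg hg'
        funext i
        induction i using Fin.lastCases with
        | last => rw [hg.2, hg'.2]
        | cast i => exact congrFun he i
      rw [← Finset.card_image_of_injOn hinj]
      apply ih
      intro j f hf
      rw [Finset.mem_image] at hf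
      obtain ⟨g0, hg0, rfl⟩ := hf
      rw [Finset.mem_filter] at hg0
      refine le_trans (Finset.card_le_card ?_) (hS j.castSucc g0 hg0.1)
      intro x hx
      rw [Finset.mem_image] at hx
      obtain ⟨g1, hg1, rfl⟩ := hx
      rw [Finset.mem_filter, Finset.mem_image] at hg1
      obtain ⟨⟨g, hg, rfl⟩, h2⟩ := hg1
      rw [Finset.mem_filter] at hg
      rw [Finset.mem_image]
      refine ⟨g, ?_, rfl⟩
      rw [Finset.mem_filter]
      refine ⟨hg.1, fun i hi => ?_⟩
      induction i using Fin.lastCases with
      | last => rw [hg.2, hg0.2]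
      | cast i => exact h2 i (by simpa using hi)
    calc S.card = ∑ v ∈ S.image (fun g => g (Fin.last n)),
          (S.filter fun g => g (Fin.last n) = v).card :=
            Finset.card_eq_sum_card_image _ _
      _ ≤ ∑ _v ∈ S.image (fun g => g (Fin.last n)), ∏ j : Fin n, s j.castSucc :=
            Finset.sum_le_sum hF
      _ = (S.image (fun g => g (Fin.last n))).card * ∏ j : Fin n, s j.castSucc := by
            rw [Finset.sum_const, smul_eq_mul]
      _ ≤ s (Fin.last n) * ∏ j : Fin n, s j.castSucc := Nat.mul_le_mul_right _ hV
      _ = ∏ j, s j := by rw [Fin.prod_univ_castSucc, mul_comm]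

end Pool.Agent.H68.EN
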