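import Pool.Agent.H65.EN.Targets
import Pool.Agent.H31.LV.Basic

/-!
# UNF: unfolding of the complete sums of the differences (row of the board enx)
-/

set_option autoImplicit false

open Finset MeasureTheory

namespace Pool.Agent.H68.EN

open Pool.Agent.H24.CL Pool.Agent.H24.LV Pool.Agent.H31.LV Pool.Agent.H50.LV Pool.Agent.H65.EN

/-- the constant term of the difference -/
def unK {k : ℕ} (f : Fin k → ℤ) (h : ℕ) : ℤ :=
  ∑ i : Fin k, if i.val = 0 then 0 else f i * (h : ℤ) ^ (i.val + 1)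

lemma un_pow (z h : ℤ) (i : ℕ) :
    (z + h) ^ (i + 1) - z ^ (i + 1) = h ^ (i + 1) +
      ∑ j ∈ range i, (Nat.choose (i + 1) (j + 1) : ℤ) * h ^ (i - j) * z ^ (j + 1) := by
  rw [add_pow, Finset.sum_range_succ, Finset.sum_range_succ']
  simp only [Nat.sub_self, pow_zero, Nat.choose_self, Nat.choose_zero_right, Nat.cast_one,
    mul_one, one_mul, Nat.sub_zero, Nat.add_sub_add_right]
  have h1 : ∑ j ∈ range i, z ^ (j + 1) * h ^ (i - j) * (Nat.choose (i + 1) (j + 1) : ℤ) =
      ∑ j ∈ range i, (Nat.choose (i + 1) (j + 1) : ℤ) * h ^ (i - j) * z ^ (j + 1) :=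
    Finset.sum_congr rfl (fun j _ => by ring)
  rw [h1]
  ring

lemma un_dif {k : ℕ} (f : Fin k → ℤ) (h : ℕ) (z : ℤ) :
    Fz f (z + h) - Fz f z = unK f h + ∑ j ∈ range (k - 1), dz f h j * z ^ (j + 1) := by
  unfold Fz unK dz
  simp only [Finset.sum_mul]
  rw [Finset.sum_comm, ← Finset.sum_sub_distrib, ← Finset.sum_add_distrib]
  refine Finset.sum_congr rfl (fun i _ => ?_)
  have hi : i.val ≤ k - 1 := by
    have := i.isLt
    omega
  have h1 : ∑ j ∈ range (k - 1), (if i.val ≤ j then 0 else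
      f i * (Nat.choose (i.val + 1) (j + 1) : ℤ) * (h : ℤ) ^ (i.val - j)) * z ^ (j + 1) =
      f i * ∑ j ∈ range i.val, (Nat.choose (i.val + 1) (j + 1) : ℤ) * (h : ℤ) ^ (i.val - j) *
        z ^ (j + 1) := by
    rw [← Finset.sum_subset (Finset.range_subset_range.2 hi), Finset.mul_sum]
    · refine Finset.sum_congr rfl (fun j hj => ?_)
      rw [Finset.mem_range] at hj
      rw [if_neg (by omega)]
      ring
    · intro j _ hj
      rw [Finset.mem_range] at hj
      rw [if_pos (by omega), zero_mul]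
  rw [h1]
  by_cases h0 : i.val = 0
  · rw [if_pos h0, if_pos h0, if_pos h0, h0]
    simp
  · rw [if_neg h0, if_neg h0, if_neg h0, ← mul_sub, un_pow]
    ring

lemma un_ct {k : ℕ} (q : ℕ) (f : Fin k → ℤ) (h : ℕ) :
    ct q f h ∣ q ∧ (∀ j, j < k - 1 → ((ct q f h : ℕ) : ℤ) ∣ dz f h j) ∧
    ∀ d : ℕ, d ∣ q → (∀ j, j < k - 1 → (d : ℤ) ∣ dz f h j) → d ∣ ct q f h := by
  unfold ct
  refine ⟨Nat.gcd_dvd_left _ _, fun j hj => ?_, fun d hd h1 => ?_⟩
  · rw [Int.natCast_dvd]
    exact (Nat.gcd_dvd_right _ _).trans (Finset.gcd_dvd (Finset.mem_range.2 hj))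
  · refine Nat.dvd_gcd hd (Finset.dvd_gcd (fun j hj => ?_))
    rw [← Int.natCast_dvd]
    exact h1 j (Finset.mem_range.1 hj)

lemma un_per (g : ℕ → ℂ) (r : ℕ) (hg : ∀ z, g (z + r) = g z) (c : ℕ) :
    ∑ z ∈ range (c * r), g z = c * ∑ z ∈ range r, g z := by
  have h1 : ∀ c x : ℕ, g (c * r + x) = g x := by
    intro c x
    induction c with
    | zero => simp
    | succ c ih =>
      rw [show (c + 1) * r + x = (c * r + x) + r by ring, hg, ih]
  induction c with
  | zero => simp
  | succ c ih =>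
    rw [Nat.succ_mul, Finset.sum_range_add, ih]
    rw [Finset.sum_congr rfl (fun x _ => h1 c x)]
    push_cast
    ring

/-- the reduced coefficients -/
def unA {k : ℕ} (q c : ℕ) (f : Fin k → ℤ) (h : ℕ) : Fin (k - 1) → ℕ :=
  fun j => (dz f h j.val / c % ((q / c : ℕ) : ℤ)).toNat

lemma un_gf {k : ℕ} (q : ℕ) (f : Fin k → ℤ) (h : ℕ) (hq : 1 ≤ q) :
    ‖GF q f h‖ = ‖Sq (q / ct q f h)
      (fun i : Fin (k - 1) => (unA q (ct q f h) f h i : ℤ))‖ := by
  obtain ⟨hc1, hc2, -⟩ := un_ct q f h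
  set c := ct q f h with hc
  obtain ⟨r, hr⟩ := hc1
  have hc0 : 0 < c := by
    rcases Nat.eq_zero_or_pos c with h0 | h0
    · rw [h0, zero_mul] at hr
      omega
    · exact h0
  have hr0 : 0 < r := by
    rcases Nat.eq_zero_or_pos r with h0 | h0
    · rw [h0, mul_zero] at hr
      omega
    · exact h0
  have hqc : q / c = r := by
    rw [hr]
    exact Nat.mul_div_cancel_left r hc0
  have hcR : (c : ℝ) ≠ 0 := by positivity
  have hrR : (r : ℝ) ≠ 0 := by positivity
  have hcC : (c : ℂ) ≠ 0 := by exact_mod_cast hc0.ne'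
  have hrC : (r : ℂ) ≠ 0 := by exact_mod_cast hr0.ne'
  have hqR : (q : ℝ) = c * r := by rw [hr]; push_cast; ring
  have hqC : (q : ℂ) = c * r := by rw [hr]; push_cast; ring
  -- the reduced polynomial
  set b : ℕ → ℤ := fun j => dz f h j / c with hb
  have hbc : ∀ j, j < k - 1 → dz f h j = c * b j := by
    intro j hj
    rw [hb]
    exact (Int.mul_ediv_cancel' (hc2 j hj)).symm
  set B : ℤ → ℤ := fun z => ∑ j ∈ range (k - 1), b j * z ^ (j + 1) with hB
  have hBz : ∀ z : ℤ, ∑ j ∈ range (k - 1), dz f h j * z ^ (j + 1) = c * B z := by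
    intro z
    rw [hB, Finset.mul_sum]
    refine Finset.sum_congr rfl (fun j hj => ?_)
    rw [hbc j (Finset.mem_range.1 hj)]
    ring
  have hterm : ∀ z : ℕ, ee (((Fz f ((z : ℤ) + h) - Fz f (z : ℤ) : ℤ) : ℝ) / q) =
      ee ((unK f h : ℝ) / q) * ee ((B z : ℝ) / r) := by
    intro z
    rw [un_dif, hBz, ← ee_add]
    congr 1
    push_cast
    rw [hqR]
    field_simp
  have hper : ∀ z : ℕ, ee ((B ((z + r : ℕ) : ℤ) : ℝ) / r) = ee ((B (z : ℤ) : ℝ) / r) := by
    intro z
    have hd : (r : ℤ) ∣ B ((z + r : ℕ) : ℤ) - B (z : ℤ) := by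
      rw [hB]
      simp only
      rw [← Finset.sum_sub_distrib]
      refine Finset.dvd_sum (fun j _ => ?_)
      rw [← mul_sub]
      refine Dvd.dvd.mul_left ?_ _
      have := sub_dvd_pow_sub_pow ((z + r : ℕ) : ℤ) (z : ℤ) (j + 1)
      refine dvd_trans ?_ this
      push_cast
      simp
    obtain ⟨n, hn⟩ := hd
    refine ee_congr _ _ n ?_
    have hn' : (B ((z + r : ℕ) : ℤ) : ℝ) - (B (z : ℤ) : ℝ) = r * n := by
      exact_mod_cast hn
    rw [← sub_div, hn']
    field_simp
  have h1 : GF q f h = ee ((unK f h : ℝ) / q) *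
      ((1 / (r : ℂ)) * ∑ z ∈ range r, ee ((B (z : ℤ) : ℝ) / r)) := by
    unfold GF
    rw [Finset.sum_congr rfl (fun z _ => hterm z), ← Finset.mul_sum]
    have h2 := un_per (fun z : ℕ => ee ((B (z : ℤ) : ℝ) / r)) r hper c
    rw [← hr] at h2
    rw [h2, hqC]
    field_simp
  have h2 : Sq (q / c) (fun i : Fin (k - 1) => (unA q c f h i : ℤ)) =
      (1 / (r : ℂ)) * ∑ z ∈ range r, ee ((B (z : ℤ) : ℝ) / r) := by
    unfold Sq
    rw [hqc]
    congr 1
    refine Finset.sum_congr rfl (fun z _ => ?_)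
    rw [e_coe]
    -- the difference is an integer
    have ha : ∀ i : Fin (k - 1), ∃ n : ℤ, b i.val = (unA q c f h i : ℤ) + r * n := by
      intro i
      refine ⟨b i.val / r, ?_⟩
      unfold unA
      rw [hqc, Int.toNat_of_nonneg (Int.emod_nonneg _ (by exact_mod_cast hr0.ne'))]
      exact (Int.emod_add_mul_ediv _ _).symm
    choose n hn using ha
    have h3 : B (z : ℤ) = ∑ i : Fin (k - 1), (unA q c f h i : ℤ) * (z : ℤ) ^ (i.val + 1) +
        r * ∑ i : Fin (k - 1), n i * (z : ℤ) ^ (i.val + 1) := by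
      rw [hB]
      simp only
      rw [← Fin.sum_univ_eq_sum_range (fun j => b j * (z : ℤ) ^ (j + 1)) (k - 1), Finset.mul_sum,
        ← Finset.sum_add_distrib]
      refine Finset.sum_congr rfl (fun i _ => ?_)
      rw [hn i]
      ring
    refine ee_congr _ _ (-(∑ i : Fin (k - 1), n i * (z : ℤ) ^ (i.val + 1))) ?_
    rw [h3]
    push_cast
    field_simp
    ring
  rw [h1, h2, norm_mul, norm_ee, one_mul]

lemma un_red {k : ℕ} (q : ℕ) (f : Fin k → ℤ) (h : ℕ) (hq : 1 ≤ q) :
    unA q (ct q f h) f h ∈ Red (k - 1) (q / ct q f h) := by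
  obtain ⟨hc1, hc2, hc3⟩ := un_ct q f h
  set c := ct q f h with hc
  obtain ⟨r, hr⟩ := hc1
  have hc0 : 0 < c := by
    rcases Nat.eq_zero_or_pos c with h0 | h0
    · rw [h0, zero_mul] at hr
      omega
    · exact h0
  have hr0 : 0 < r := by
    rcases Nat.eq_zero_or_pos r with h0 | h0
    · rw [h0, mul_zero] at hr
      omega
    · exact h0
  have hqc : q / c = r := by
    rw [hr]
    exact Nat.mul_div_cancel_left r hc0
  have hrZ : (0 : ℤ) < r := by exact_mod_cast hr0
  rw [hqc]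
  classical
  refine Finset.mem_filter.2 ⟨Fintype.mem_piFinset.2 (fun j => ?_), fun d hd hda => ?_⟩
  · rw [Finset.mem_range]
    unfold unA
    rw [hqc]
    have h1 := Int.emod_nonneg (dz f h j.val / c) hrZ.ne'
    have h2 := Int.emod_lt_of_pos (dz f h j.val / c) hrZ
    omega
  · have h1 : c * d ∣ c := by
      apply hc3
      · rw [hr]
        exact Nat.mul_dvd_mul_left c hd
      · intro j hj
        have h2 := hda ⟨j, hj⟩
        unfold unA at h2
        rw [hqc] at h2
        have h3 : (d : ℤ) ∣ dz f h j / c % (r : ℤ) := by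
          have h4 : (d : ℤ) ∣ (((dz f h j / c % (r : ℤ)).toNat : ℕ) : ℤ) := by exact_mod_cast h2
          rwa [Int.toNat_of_nonneg (Int.emod_nonneg _ hrZ.ne')] at h4
        have h4 : (d : ℤ) ∣ dz f h j / c := by
          rw [← Int.emod_add_mul_ediv (dz f h j / c) r]
          exact dvd_add h3 (Dvd.dvd.mul_right (by exact_mod_cast hd) _)
        obtain ⟨n, hn⟩ := h4
        refine ⟨n, ?_⟩
        rw [← Int.mul_ediv_cancel' (hc2 j hj), hn]
        push_cast
        ring
    have h2 : d ∣ 1 := by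
      have h3 : c * d ∣ c * 1 := by rwa [mul_one]
      exact Nat.dvd_of_mul_dvd_mul_left hc0 h3
    exact Nat.dvd_one.1 h2

lemma un_cnt (q A : ℕ) (x0 : ℤ) (hq : 1 ≤ q) :
    ((Ico (0 : ℤ) q).filter fun x => (q : ℤ) ∣ (A : ℤ) * (x - x0)).card ≤ Nat.gcd A q := by
  set g := Nat.gcd A q with hg
  have hg0 : 0 < g := Nat.gcd_pos_of_pos_right A hq
  obtain ⟨r, hr⟩ := Nat.gcd_dvd_right A q
  obtain ⟨a, ha⟩ := Nat.gcd_dvd_left A q
  rw [← hg] at hr ha
  have hr0 : 0 < r := by
    rcases Nat.eq_zero_or_pos r with h0 | h0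
    · rw [h0, mul_zero] at hr
      omega
    · exact h0
  have hcop : Nat.Coprime a r := by
    have h1 := Nat.coprime_div_gcd_div_gcd (m := A) (n := q) hg0
    rw [← hg] at h1
    have h2 : A / g = a := by
      rw [ha]
      exact Nat.mul_div_cancel_left a hg0
    have h3 : q / g = r := by
      rw [hr]
      exact Nat.mul_div_cancel_left r hg0
    rwa [h2, h3] at h1
  have hrZ : (0 : ℤ) < r := by exact_mod_cast hr0
  have key : ∀ y : ℤ, (q : ℤ) ∣ (A : ℤ) * y → (r : ℤ) ∣ y := by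
    intro y hy
    have h1 : ((g : ℤ) * r) ∣ (g : ℤ) * (a * y) := by
      have : (q : ℤ) = (g : ℤ) * r := by rw [hr]; push_cast; ring
      rw [← this]
      have h2 : (A : ℤ) * y = (g : ℤ) * (a * y) := by rw [ha]; push_cast; ring
      rwa [← h2]
    have h2 : (r : ℤ) ∣ a * y :=
      Int.dvd_of_mul_dvd_mul_left (by exact_mod_cast hg0.ne') h1
    exact (Int.isCoprime_iff_gcd_eq_one.2 (by
      rw [Int.gcd_natCast_natCast]
      exact hcop.symm)).dvd_of_dvd_mul_left h2
  rw [← Finset.card_range g]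
  refine Finset.card_le_card_of_injOn (fun x => (x / r).toNat) ?_ ?_
  · intro x hx
    simp only [Finset.coe_filter, Set.mem_ofPred_eq, Finset.mem_Ico] at hx
    simp only [Finset.coe_range, Set.mem_Iio]
    have h1 : x / r < g := by
      rw [Int.ediv_lt_iff_lt_mul hrZ]
      have : (q : ℤ) = (g : ℤ) * r := by rw [hr]; push_cast; ring
      rw [← this]
      exact hx.1.2
    have h2 : 0 ≤ x / r := Int.ediv_nonneg hx.1.1 hrZ.le
    omega
  · intro x hx y hy hxy
    simp only [Finset.coe_filter, Set.mem_ofPred_eq, Finset.mem_Ico] at hx hy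
    simp only at hxy
    have h1 : 0 ≤ x / r := Int.ediv_nonneg hx.1.1 hrZ.le
    have h2 : 0 ≤ y / r := Int.ediv_nonneg hy.1.1 hrZ.le
    have h3 : x / r = y / r := by omega
    have h4 := key _ hx.2
    have h5 := key _ hy.2
    have h6 : (r : ℤ) ∣ x - y := by
      have := dvd_sub h4 h5
      rwa [show x - x0 - (y - x0) = x - y by ring] at this
    have h7 : x % r = y % r :=
      Int.emod_eq_emod_iff_emod_sub_eq_zero.2 (Int.emod_eq_zero_of_dvd h6)
    rw [← Int.emod_add_mul_ediv x r, ← Int.emod_add_mul_ediv y r, h3, h7]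

lemma un_prod (c m : ℕ) :
    ∏ i ∈ range (m + 1), (if i = 0 then 1 else (i + 1) * c) = Nat.factorial (m + 1) * c ^ m := by
  induction m with
  | zero => simp
  | succ m ih =>
    rw [Finset.prod_range_succ, ih, if_neg (by omega), Nat.factorial_succ (m + 1)]
    ring

lemma un_dz {k : ℕ} (f g : Fin k → ℤ) (h : ℕ) (j : Fin k) (hj : j.val ≠ 0)
    (hfg : ∀ i, j < i → g i = f i) :
    dz g h (j.val - 1) - dz f h (j.val - 1) = (((j.val + 1) * h : ℕ) : ℤ) * (g j - f j) := by
  unfold dz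
  rw [← Finset.sum_sub_distrib, Finset.sum_eq_single j]
  · rw [if_neg (by omega), if_neg (by omega)]
    have h1 : j.val - 1 + 1 = j.val := by omega
    have h2 : j.val - (j.val - 1) = 1 := by omega
    rw [h1, h2, pow_one]
    have h3 : Nat.choose (j.val + 1) j.val = j.val + 1 := by
      rw [Nat.choose_succ_self_right]
    rw [h3]
    push_cast
    ring
  · intro i _ hi
    by_cases h1 : i.val ≤ j.val - 1
    · rw [if_pos h1, if_pos h1, sub_zero]
    · rw [if_neg h1, if_neg h1]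
      have h2 : j < i := by
        rw [Fin.lt_def]
        have : i.val ≠ j.val := fun he => hi (Fin.ext he)
        omega
      rw [hfg i h2, sub_self]
  · intro h1
    exact absurd (Finset.mem_univ j) h1

lemma un_fib (h1 : T_TRI) (h2 : T_CON) (k q h c : ℕ) (hk : 2 ≤ k) (hq : 1 ≤ q)
    (S : Finset (Fin k → ℤ)) (hS : ∀ f ∈ S, f ∈ Fq k q ∧ Prim q f ∧ ct q f h = c)
    (hc : 1 ≤ c) (hS2 : ∀ f ∈ S, ∀ g ∈ S, ∀ j, j < k - 1 → (q : ℤ) ∣ dz g h j - dz f h j) :
    S.card ≤ Nat.factorial k * c ^ (k - 1) := by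
  have h3 := h1 k S (fun j => if j.val = 0 then 1 else (j.val + 1) * c) ?_
  · refine h3.trans (le_of_eq ?_)
    obtain ⟨m, rfl⟩ : ∃ m, k = m + 1 := ⟨k - 1, by omega⟩
    rw [Nat.add_sub_cancel, ← un_prod c m]
    exact Fin.prod_univ_eq_prod_range (fun i => if i = 0 then 1 else (i + 1) * c) (m + 1)
  · intro j f hf
    obtain ⟨hfq, hfp, hfc⟩ := hS f hf
    by_cases hj : j.val = 0
    · rw [if_pos hj]
      refine le_trans (Finset.card_le_card (t := {0}) ?_) (by simp)
      intro x hx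
      rw [Finset.mem_image] at hx
      obtain ⟨g, hg, rfl⟩ := hx
      rw [Finset.mem_filter] at hg
      have h4 := (hS g hg.1).1
      unfold Fq at h4
      rw [Fintype.mem_piFinset] at h4
      have h5 := h4 j
      rw [if_pos hj] at h5
      exact h5
    · rw [if_neg hj]
      refine le_trans (Finset.card_le_card
        (t := (Ico (0 : ℤ) q).filter fun x => (q : ℤ) ∣ (((j.val + 1) * h : ℕ) : ℤ) * (x - f j))
        ?_) ?_
      · intro x hx
        rw [Finset.mem_image] at hx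
        obtain ⟨g, hg, rfl⟩ := hx
        rw [Finset.mem_filter] at hg
        have h4 := (hS g hg.1).1
        unfold Fq at h4
        rw [Fintype.mem_piFinset] at h4
        have h5 := h4 j
        rw [if_neg hj] at h5
        rw [Finset.mem_filter]
        refine ⟨h5, ?_⟩
        rw [← un_dz f g h j hj hg.2]
        refine hS2 f hf g hg.1 _ ?_
        have := j.isLt
        omega
      · refine (un_cnt q _ (f j) hq).trans ?_
        have h4 : Nat.gcd ((j.val + 1) * h) q ∣ Nat.gcd (j.val + 1) q * Nat.gcd h q :=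
          Nat.gcd_mul_left_dvd_mul_gcd _ _ _
        have h5 : Nat.gcd (j.val + 1) q ≤ j.val + 1 := Nat.gcd_le_left _ (by omega)
        have h6 : Nat.gcd h q ≤ c := by
          have := (h2 k q h f hq hfp).2
          rw [hfc] at this
          exact Nat.le_of_dvd hc this
        have h7 : 0 < Nat.gcd (j.val + 1) q * Nat.gcd h q :=
          Nat.mul_pos (Nat.gcd_pos_of_pos_right _ hq) (Nat.gcd_pos_of_pos_right _ hq)
        exact (Nat.le_of_dvd h7 h4).trans (Nat.mul_le_mul h5 h6)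

theorem pf_UNF (h1 : T_TRI) (h2 : T_CON) : T_UNF := by
  intro k s q h c hk hq hh hcq
  have hc0 : 1 ≤ c := Nat.pos_of_dvd_of_pos hcq hq
  obtain ⟨r, hr⟩ := hcq
  have hr0 : 0 < r := by
    rcases Nat.eq_zero_or_pos r with h0 | h0
    · rw [h0, mul_zero] at hr
      omega
    · exact h0
  have hqc : q / c = r := by
    rw [hr]
    exact Nat.mul_div_cancel_left r hc0
  have hrZ : (0 : ℤ) < r := by exact_mod_cast hr0
  classical
  rw [← Finset.sum_fiberwise_of_maps_to (g := fun f => unA q c f h) (t := Red (k - 1) (q / c))]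
  · unfold Wd
    rw [Finset.mul_sum]
    refine Finset.sum_le_sum (fun a ha => ?_)
    have h3 : ∀ f ∈ ((Fq k q).filter (fun f => Prim q f ∧ ct q f h = c)).filter
        (fun f => unA q c f h = a), ‖GF q f h‖ ^ s =
          ‖Sq (q / c) (fun i : Fin (k - 1) => (a i : ℤ))‖ ^ s := by
      intro f hf
      rw [Finset.mem_filter, Finset.mem_filter] at hf
      have h4 := un_gf q f h hq
      rw [hf.1.2.2, hf.2] at h4
      rw [h4]
    rw [Finset.sum_congr rfl h3, Finset.sum_const, nsmul_eq_mul]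
    refine mul_le_mul_of_nonneg_right ?_ (pow_nonneg (norm_nonneg _) _)
    have h4 := un_fib h1 h2 k q h c hk hq
      (((Fq k q).filter (fun f => Prim q f ∧ ct q f h = c)).filter
        (fun f => unA q c f h = a)) ?_ hc0 ?_
    · exact_mod_cast h4
    · intro f hf
      rw [Finset.mem_filter, Finset.mem_filter] at hf
      exact ⟨hf.1.1, hf.1.2.1, hf.1.2.2⟩
    · intro f hf g hg j hj
      rw [Finset.mem_filter, Finset.mem_filter] at hf hg
      have e1 := congrFun (hf.2.trans hg.2.symm) ⟨j, hj⟩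
      unfold unA at e1
      rw [hqc] at e1
      simp only at e1
      have n1 := Int.emod_nonneg (dz f h j / c) hrZ.ne'
      have n2 := Int.emod_nonneg (dz g h j / c) hrZ.ne'
      have e2 : dz f h j / c % (r : ℤ) = dz g h j / c % (r : ℤ) := by omega
      have e3 : (r : ℤ) ∣ dz g h j / c - dz f h j / c :=
        Int.ModEq.dvd e2
      obtain ⟨n, hn⟩ := e3
      have d1 := (un_ct q f h).2.1 j hj
      have d2 := (un_ct q g h).2.1 j hj
      rw [hf.1.2.2] at d1
      rw [hg.1.2.2] at d2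
      refine ⟨n, ?_⟩
      rw [← Int.mul_ediv_cancel' d1, ← Int.mul_ediv_cancel' d2, ← mul_sub, hn, hr]
      push_cast
      ring
  · intro f hf
    rw [Finset.mem_filter] at hf
    have h4 := un_red q f h hq
    rw [hf.2.2] at h4
    exact h4

end Pool.Agent.H68.EN
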