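import Pool.Agent.H93.EN.Targets4

/-!
# en_modules, row BD: the local extensions are bounded and measurable
-/

namespace Pool.Agent.H68.EN

open MeasureTheory Set Metric Filter Topology Pool.Agent.H93.EN
open Pool.Agent.H93.BL hiding T_B1 T_B2 T_B3 T_SB T_SC

theorem bd : T_BD := by
  intro ι P F hF τ
  obtain ⟨R₀, hR₀⟩ := P.isBounded.exists_norm_le
  have hout : ∀ y w, R₀ < ‖y‖ → F y w = 0 := by
    intro y w hy
    apply hF.out
    intro hm
    exact absurd (hR₀ y hm) (not_le.2 hy)
  cases τ with
  | none => exact ⟨hF.meas, hF.bd, R₀, hout⟩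
  | some j =>
    have hsg : Measurable fun p : ℂ × ℂ => sg P j p.1 := by
      have h1 : Continuous fun p : ℂ × ℂ => sg P j p.1 := by
        unfold sg
        exact (continuous_cr_right _).comp (continuous_fst.sub continuous_const)
      exact h1.measurable
    have haff : Continuous (P.aff j) := by
      unfold Polygon.aff
      exact continuous_const.add (continuous_const.mul
        (Complex.continuous_conj.comp (continuous_id.sub continuous_const)))
    have hrefl : Continuous (P.refl j) := by
      unfold Polygon.refl
      exact continuous_const.mul Complex.continuous_conj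
    refine ⟨?_, ?_, R₀ + 2 * ‖P.p j‖, ?_⟩
    · have h2 : Measurable fun p : ℂ × ℂ => F (P.aff j p.1) (P.refl j p.2) := by
        have h3 : Measurable fun p : ℂ × ℂ => (P.aff j p.1, P.refl j p.2) :=
          ((haff.comp continuous_fst).prodMk (hrefl.comp continuous_snd)).measurable
        exact hF.meas.comp h3
      exact Measurable.ite (measurableSet_lt measurable_const hsg) hF.meas h2
    · intro y w
      show 0 ≤ (if 0 < sg P j y then F y w else F (P.aff j y) (P.refl j w)) ∧
        (if 0 < sg P j y then F y w else F (P.aff j y) (P.refl j w)) ≤ 1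
      by_cases h : 0 < sg P j y
      · rw [if_pos h]; exact hF.bd _ _
      · rw [if_neg h]; exact hF.bd _ _
    · intro y w hy
      show (if 0 < sg P j y then F y w else F (P.aff j y) (P.refl j w)) = 0
      have hp : 0 ≤ ‖P.p j‖ := norm_nonneg _
      by_cases h : 0 < sg P j y
      · rw [if_pos h]
        exact hout y w (by linarith)
      · rw [if_neg h]
        apply hout
        have h4 : P.aff j y - P.p j = P.refl j (y - P.p j) := by
          rw [P.aff_eq]; ring
        have h5 : ‖P.aff j y - P.p j‖ = ‖y - P.p j‖ := by rw [h4, P.norm_refl]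
        have h6 : ‖P.aff j y - P.p j‖ ≤ ‖P.aff j y‖ + ‖P.p j‖ := norm_sub_le _ _
        have h7 : ‖y‖ ≤ ‖y - P.p j‖ + ‖P.p j‖ := by
          have := norm_add_le (y - P.p j) (P.p j)
          rwa [sub_add_cancel] at this
        linarith

end Pool.Agent.H68.EN
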