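import Pool.Agent.H93.EN.Targets4

/-!
# en_modules, row U4: mollifications of functions which agree near a point
-/

namespace Pool.Agent.H68.EN

open MeasureTheory Set Metric Filter Topology Pool.Agent.H93.EN
open Pool.Agent.H93.BL hiding T_B1 T_B2 T_B3 T_SB T_SC

theorem u4 (h1 : T_CH) : T_U4 := by
  intro Φ Ψ x₀ R hA δ hδ x hx
  obtain ⟨_, _, _, _, C, _, hC⟩ := h1
  obtain ⟨_, _, _, hz, _, _, _, _, hgz⟩ := hC δ hδ
  have hnear : ∀ y, ¬ δ ≤ ‖x - y‖ → y ∈ ball x₀ R := by
    intro y hy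
    rw [mem_ball]
    have h2 : dist y x₀ ≤ dist y x + dist x x₀ := dist_triangle _ _ _
    have h3 : dist y x = ‖x - y‖ := by rw [dist_comm, dist_eq_norm]
    push Not at hy
    linarith
  have hM : Ml Φ δ x = Ml Ψ δ x := by
    funext w
    unfold Ml
    apply integral_congr_ae
    filter_upwards [hA] with y hy
    by_cases h : δ ≤ ‖x - y‖
    · rw [hz _ h, zero_mul, zero_mul]
    · rw [hy (hnear y h) w]
  have hN : Nl Φ δ x = Nl Ψ δ x := by
    funext w
    unfold Nl
    apply integral_congr_ae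
    filter_upwards [hA] with y hy
    by_cases h : δ ≤ ‖x - y‖
    · rw [hgz _ h, zero_mul, zero_mul]
    · rw [hy (hnear y h) w]
  refine ⟨hM, hN, ?_⟩
  funext w
  unfold Hl
  rw [hN]

end Pool.Agent.H68.EN
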