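import Pool.Agent.H93.EN.Targets4

/-!
# en_modules, row U5: realness on the line of a symmetric function
-/

namespace Pool.Agent.H68.EN

open MeasureTheory Set Metric Filter Topology Pool.Agent.H93.EN
open Pool.Agent.H93.BL hiding T_B1 T_B2 T_B3 T_SB T_SC

namespace U5

variable {ι : Type} (P : Polygon ι) (j : ι)

lemma aff_mp : MeasurePreserving (P.aff j) volume volume := by
  have hu : ‖P.u j ^ 2‖ = 1 := by rw [norm_pow, P.norm_u]; norm_num
  let c : Circle := ⟨P.u j ^ 2, mem_sphere_zero_iff_norm.2 hu⟩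
  have h1 : MeasurePreserving (fun y : ℂ => y - P.p j) volume volume :=
    measurePreserving_sub_right _ _
  have h2 : MeasurePreserving Complex.conjLIE volume volume :=
    Complex.conjLIE.measurePreserving
  have h3 : MeasurePreserving (rotation c) volume volume := (rotation c).measurePreserving
  have h4 : MeasurePreserving (fun y : ℂ => P.p j + y) volume volume :=
    measurePreserving_add_left _ _
  exact h4.comp (h3.comp (h2.comp h1))

lemma aff_cont : Continuous (P.aff j) := by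
  unfold Polygon.aff
  exact continuous_const.add (continuous_const.mul
    (Complex.continuous_conj.comp (continuous_id.sub continuous_const)))

noncomputable def affH : ℂ ≃ₜ ℂ where
  toFun := P.aff j
  invFun := P.aff j
  left_inv := P.aff_aff j
  right_inv := P.aff_aff j
  continuous_toFun := aff_cont P j
  continuous_invFun := aff_cont P j

lemma integral_aff (f : ℂ → ℝ) : ∫ y, f (P.aff j y) = ∫ y, f y :=
  (aff_mp P j).integral_comp (affH P j).measurableEmbedding f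

lemma aff_fix (x : ℂ) (hx : sg P j x = 0) : P.aff j x = x := by
  have h1 : x - P.p j = (ip (x - P.p j) (P.u j) : ℂ) * P.u j := by
    apply ext_ip_cr (P.u j) _ _ (P.norm_u j)
    · rw [ip_smul_left, P.ip_u_u, mul_one]
    · rw [cr_smul_right, cr_self, mul_zero]
      exact hx
  have h2 : x = P.p j + (ip (x - P.p j) (P.u j) : ℂ) * P.u j := by
    rw [← h1]; ring
  rw [h2]
  exact P.aff_line j _

lemma norm_aff_sub (x y : ℂ) : ‖P.aff j x - P.aff j y‖ = ‖x - y‖ := by
  have h : P.aff j x - P.aff j y = P.refl j (x - y) := by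
    rw [P.aff_eq, P.aff_eq, add_sub_add_left_eq_sub, ← P.refl_sub]
    congr 1
    ring
  rw [h, P.norm_refl]

/-- symmetry of the mollification on the line -/
lemma ml_symm (h1 : T_CH) (Φ : ℂ → ℂ → ℝ) (x₀ : ℂ) (R : ℝ)
    (hs : ∀ᵐ y : ℂ, y ∈ ball x₀ R → ∀ w, Φ (P.aff j y) (P.refl j w) = Φ y w)
    (δ : ℝ) (hδ : 0 < δ) (x : ℂ) (hx : dist x x₀ + δ < R) (hl : sg P j x = 0) (w : ℂ) :
    Ml Φ δ x (P.refl j w) = Ml Φ δ x w := by
  obtain ⟨_, _, _, _, C, _, hC⟩ := h1
  obtain ⟨_, _, _, hz, _, hrad, _, _, _⟩ := hC δ hδ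
  unfold Ml
  rw [← integral_aff P j (fun y => chi δ (x - y) * Φ y (P.refl j w))]
  apply integral_congr_ae
  filter_upwards [hs] with y hy
  have hn : ‖x - P.aff j y‖ = ‖x - y‖ := by
    have := norm_aff_sub P j x y
    rwa [aff_fix P j x hl] at this
  have hc : chi δ (x - P.aff j y) = chi δ (x - y) := hrad _ _ hn
  rw [hc]
  by_cases h : δ ≤ ‖x - y‖
  · rw [hz _ h, zero_mul, zero_mul]
  · have hb : y ∈ ball x₀ R := by
      rw [mem_ball]
      have h2 : dist y x₀ ≤ dist y x + dist x x₀ := dist_triangle _ _ _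
      have h3 : dist y x = ‖x - y‖ := by rw [dist_comm, dist_eq_norm]
      push Not at h
      linarith
    rw [hy hb w]

/-- the mode times the power of the direction of the side is real -/
lemma mode_real (h1 : T_CH) (h2 : T_B3) (Φ : ℂ → ℂ → ℝ) (x₀ : ℂ) (R : ℝ)
    (hs : ∀ᵐ y : ℂ, y ∈ ball x₀ R → ∀ w, Φ (P.aff j y) (P.refl j w) = Φ y w)
    (δ : ℝ) (hδ : 0 < δ) (x : ℂ) (hx : dist x x₀ + δ < R) (hl : sg P j x = 0) (k : ℤ) :
    (md (Ml Φ δ x) k * P.u j ^ k).im = 0 := by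
  have h3 := (h2 (Ml Φ δ x) (P.u j) (P.norm_u j)).2.1 k
  have h4 : (fun w => Ml Φ δ x (rf (P.u j) w)) = Ml Φ δ x := by
    funext w
    exact ml_symm P j h1 Φ x₀ R hs δ hδ x hx hl w
  rw [h4] at h3
  have hu : P.u j ≠ 0 := P.u_ne j
  have hcu : (starRingEnd ℂ) (P.u j) = (P.u j)⁻¹ := by
    apply eq_inv_of_mul_eq_one_left
    rw [mul_comm]
    exact P.u_mul_conj j
  rw [← Complex.conj_eq_iff_im, map_mul, map_zpow₀, hcu]
  have h5 : (starRingEnd ℂ) (md (Ml Φ δ x) k) = (P.u j ^ 2) ^ k * md (Ml Φ δ x) k := by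
    have h6 : (P.u j ^ 2) ^ k * md (Ml Φ δ x) k =
        (P.u j ^ 2) ^ k * ((P.u j ^ 2) ^ (-k) * (starRingEnd ℂ) (md (Ml Φ δ x) k)) := by
      rw [← h3]
    rw [h6, ← mul_assoc, ← zpow_add₀ (pow_ne_zero 2 hu), add_neg_cancel, zpow_zero, one_mul]
  rw [h5, inv_zpow, pow_two, mul_zpow]
  have hk : P.u j ^ k ≠ 0 := zpow_ne_zero k hu
  field_simp

/-- the derivative of a real-valued multiple is real -/
lemma im_deriv (g : ℂ → ℂ) (x u c : ℂ) (hgd : DifferentiableAt ℝ g x)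
    (hev : ∀ᶠ t : ℝ in 𝓝 0, (g (x + (t : ℂ) * u) * c).im = 0) :
    (fderiv ℝ g x u * c).im = 0 := by
  have hline : HasDerivAt (fun t : ℝ => x + (t : ℂ) * u) u 0 := by
    have h4 : HasDerivAt (fun t : ℝ => (t : ℂ)) 1 0 := Complex.ofRealCLM.hasDerivAt
    have h5 := (h4.mul_const u).const_add x
    rwa [one_mul] at h5
  have hgx : HasFDerivAt g (fderiv ℝ g x) (x + ((0 : ℝ) : ℂ) * u) := by
    have h6 : x + ((0 : ℝ) : ℂ) * u = x := by
      rw [Complex.ofReal_zero, zero_mul, add_zero]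
    rw [h6]
    exact hgd.hasFDerivAt
  have hd1 : HasDerivAt (fun t : ℝ => g (x + (t : ℂ) * u)) (fderiv ℝ g x u) 0 :=
    hgx.comp_hasDerivAt (0 : ℝ) hline
  have hd2 : HasDerivAt (fun t : ℝ => g (x + (t : ℂ) * u) * c) (fderiv ℝ g x u * c) 0 :=
    hd1.mul_const _
  have hd3 : HasDerivAt (fun t : ℝ => (g (x + (t : ℂ) * u) * c).im)
      (fderiv ℝ g x u * c).im 0 :=
    (Complex.imCLM.hasFDerivAt).comp_hasDerivAt (0 : ℝ) hd2
  exact hd3.unique ((hasDerivAt_const (0 : ℝ) (0 : ℝ)).congr_of_eventuallyEq hev)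

end U5

open U5 in
theorem u5 (h1 : T_CH) (h2 : T_B3) (h3 : T_U1) : T_U5 := by
  intro ι P j Φ x₀ R hB hs _ δ hδ x hx hl k
  have hreal := mode_real P j h1 h2 Φ x₀ R hs δ hδ
  refine ⟨hreal x hx hl k, ?_⟩
  set g : ℂ → ℂ := fun x => md (Ml Φ δ x) k with hg
  have hgd : DifferentiableAt ℝ g x := by
    have := (h3 Φ hB δ hδ k).1
    exact (this.differentiable (by norm_num)) x
  set D : ℂ := fderiv ℝ g x (P.u j) with hD
  have hev : ∀ᶠ t : ℝ in 𝓝 0, (g (x + (t : ℂ) * P.u j) * P.u j ^ k).im = 0 := by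
    have hpos : 0 < R - δ - dist x x₀ := by linarith
    filter_upwards [Metric.ball_mem_nhds (0 : ℝ) hpos] with t ht
    rw [mem_ball, dist_zero_right, Real.norm_eq_abs] at ht
    apply hreal (x + (t : ℂ) * P.u j)
    · have h7 : dist (x + (t : ℂ) * P.u j) x₀ ≤ dist (x + (t : ℂ) * P.u j) x + dist x x₀ :=
        dist_triangle _ _ _
      have h8 : dist (x + (t : ℂ) * P.u j) x = |t| := by
        rw [dist_eq_norm, add_sub_cancel_left, norm_mul, P.norm_u, mul_one, Complex.norm_real,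
          Real.norm_eq_abs]
      rw [h8] at h7
      linarith
    · unfold sg at hl ⊢
      have h9 : x + (t : ℂ) * P.u j - P.p j = (x - P.p j) + (t : ℂ) * P.u j := by ring
      rw [h9, cr_add_right, cr_smul_right, cr_self, mul_zero, add_zero]
      exact hl
  have hDim : (D * P.u j ^ k).im = 0 := im_deriv g x (P.u j) (P.u j ^ k) hgd hev
  have hmim : (g x * P.u j ^ k).im = 0 := hreal x hx hl k
  have hu : P.u j ≠ 0 := P.u_ne j
  have hcu : (starRingEnd ℂ) (P.u j ^ k) * P.u j ^ k = 1 := by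
    rw [map_zpow₀, ← mul_zpow, mul_comm ((starRingEnd ℂ) (P.u j)), P.u_mul_conj, one_zpow]
  have hfin : (starRingEnd ℂ) (g x) * D =
      (starRingEnd ℂ) (g x * P.u j ^ k) * (D * P.u j ^ k) := by
    rw [map_mul]
    calc (starRingEnd ℂ) (g x) * D = (starRingEnd ℂ) (g x) * D * 1 := by rw [mul_one]
      _ = (starRingEnd ℂ) (g x) * D * ((starRingEnd ℂ) (P.u j ^ k) * P.u j ^ k) := by rw [hcu]
      _ = _ := by ring
  show ((starRingEnd ℂ) (g x) * D).im = 0
  rw [hfin, Complex.mul_im, Complex.conj_im, hmim, hDim]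
  ring

end Pool.Agent.H68.EN
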